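import Pool.Agent.Helper47.RFn.GoalsB

/-!
Packet RFn-BDD (MP_c98eff_gt, n >= 4): bounds on compact time intervals (adapted from Pool/Agent/Helper90/RF/BDD.lean).
-/

namespace Pool.Agent.Helper14.RFn

open Pool.Agent.Helper47.RFn

theorem bd_compact {n : ℕ} {T : ℝ} (F : FB n T) (hF : F.Base) (f : F.B) (t1 T1 : ℝ) (h1 : 0 < t1)
    (h2 : T1 < T) : ∃ C, ∀ z (t : TI T), t1 ≤ t → (t : ℝ) ≤ T1 → |F.ev z t f| ≤ C := by
  have hK : IsCompact {t : TI T | t1 ≤ (t : ℝ) ∧ (t : ℝ) ≤ T1} := by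
    rw [Subtype.isCompact_iff]
    have : ((↑) : TI T → ℝ) '' {t : TI T | t1 ≤ (t : ℝ) ∧ (t : ℝ) ≤ T1} = Set.Icc t1 T1 := by
      ext x
      constructor
      · rintro ⟨t, ht, rfl⟩
        exact ht
      · intro hx
        exact ⟨⟨x, lt_of_lt_of_le h1 hx.1, lt_of_le_of_lt hx.2 h2⟩, hx, rfl⟩
    rw [this]
    exact isCompact_Icc
  obtain ⟨C, hC⟩ := ((isCompact_univ (X := F.Z)).prod hK).exists_bound_of_continuousOn
    (f := fun p : F.Z × TI T => F.ev p.1 p.2 f) (hF.cont f).continuousOn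
  refine ⟨C, fun z t ht1 ht2 => ?_⟩
  have := hC (z, t) ⟨Set.mem_univ _, ht1, ht2⟩
  simpa [Real.norm_eq_abs] using this

theorem goal_BDD : Goal_BDD := by
  intro n T F hF
  refine ⟨?_, ?_, ?_, ?_⟩
  · rintro f T1 hT1 ⟨C0, t0, ht0, ht0T, hC0⟩
    obtain ⟨C1, hC1⟩ := bd_compact F hF f t0 T1 ht0 hT1
    refine ⟨max C0 C1, fun z t ht => ?_⟩
    rcases lt_or_ge (t : ℝ) t0 with h | h
    · exact (hC0 z t h).trans (le_max_left _ _)
    · exact (hC1 z t h ht).trans (le_max_right _ _)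
  · intro f t1 T1 h1 h2
    exact bd_compact F hF f t1 T1 h1 h2
  · rintro f g ⟨C, t0, ht0, ht0T, hC⟩ ⟨C', t0', ht0', ht0T', hC'⟩
    have hm : 0 < min t0 t0' := lt_min ht0 ht0'
    have hmT : min t0 t0' < T := lt_of_le_of_lt (min_le_left _ _) ht0T
    refine ⟨⟨C + C', min t0 t0', hm, hmT, ?_⟩, ⟨C + C', min t0 t0', hm, hmT, ?_⟩,
      ⟨C * C', min t0 t0', hm, hmT, ?_⟩, fun c => ⟨|c| * C, t0, ht0, ht0T, ?_⟩⟩
    · intro z t ht
      have a := hC z t (lt_of_lt_of_le ht (min_le_left _ _))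
      have b := hC' z t (lt_of_lt_of_le ht (min_le_right _ _))
      rw [map_add]
      exact (abs_add_le _ _).trans (add_le_add a b)
    · intro z t ht
      have a := hC z t (lt_of_lt_of_le ht (min_le_left _ _))
      have b := hC' z t (lt_of_lt_of_le ht (min_le_right _ _))
      rw [map_sub]
      exact (abs_sub _ _).trans (add_le_add a b)
    · intro z t ht
      have a := hC z t (lt_of_lt_of_le ht (min_le_left _ _))
      have b := hC' z t (lt_of_lt_of_le ht (min_le_right _ _))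
      rw [map_mul, abs_mul]
      exact mul_le_mul a b (abs_nonneg _) ((abs_nonneg _).trans a)
    · intro z t ht
      have a := hC z t ht
      rw [map_smul, smul_eq_mul, abs_mul]
      exact mul_le_mul_of_nonneg_left a (abs_nonneg _)
  · intro f t1 c hc ε hε
    have hopen : IsOpen {p : F.Z × TI T | c - ε < F.ev p.1 p.2 f} :=
      isOpen_lt continuous_const (hF.cont f)
    obtain ⟨u, v, hu, hv, hsu, htv, huv⟩ := generalized_tube_lemma (isCompact_univ (X := F.Z))
      (isCompact_singleton (x := t1)) hopen (by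
        rintro ⟨z, t⟩ ⟨_, ht⟩
        have ht' : t = t1 := ht
        subst ht'
        show c - ε < F.ev z t f
        linarith [hc z])
    obtain ⟨δ, hδ, hball⟩ := Metric.isOpen_iff.1 hv t1 (htv rfl)
    refine ⟨δ, hδ, fun z t ht => ?_⟩
    have h1 : t ∈ v := hball (by
      rw [Metric.mem_ball, Subtype.dist_eq, Real.dist_eq]
      exact ht)
    have h2 : (z, t) ∈ {p : F.Z × TI T | c - ε < F.ev p.1 p.2 f} :=
      huv ⟨hsu (Set.mem_univ z), h1⟩
    exact le_of_lt h2

end Pool.Agent.Helper14.RFn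

namespace Pool.Agent.Helper47.RFn

theorem goal_BDD : Goal_BDD := Pool.Agent.Helper14.RFn.goal_BDD

end Pool.Agent.Helper47.RFn
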