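import Pool.Agent.Helper47.RFn.GoalsB

/-!
# Project RFn, packet MP1: the weak maximum principle from the strict one (adapted from
Pool/Agent/Helper8/RF/MP1.lean)
-/

set_option autoImplicit false

open Finset

namespace Pool.Agent.Helper14.RFn

open Pool.Agent.Helper47.RFn

variable {n : ℕ} {T : ℝ} {F : FB n T}

theorem Hop_add' (f g : F.B) : F.Hop (f + g) = F.Hop f + F.Hop g := by
  unfold FB.Hop FB.Lap
  simp only [map_add, Finset.sum_add_distrib]
  ring

theorem Hop_smul' (c : ℝ) (f : F.B) : F.Hop (c • f) = c • F.Hop f := by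
  unfold FB.Hop FB.Lap
  simp only [Derivation.map_smul, ← Finset.smul_sum, smul_sub]

/-- a smooth function of time alone: there is an element of the algebra with these values, and its heat operator
is the time derivative -/
theorem exists_time (hF : F.Base) (φ : ℝ → ℝ) (U : Set ℝ) (hU : IsOpen U)
    (hφ : ContDiffOn ℝ ((⊤ : ℕ∞) : WithTop ℕ∞) φ U) (hT : ∀ t : TI T, (t : ℝ) ∈ U) :
    ∃ e : F.B, (∀ z t, F.ev z t e = φ t) ∧ (∀ z t, F.ev z t (F.Hop e) = deriv φ t) ∧
      (∀ z t, F.ev z t (F.D e) = deriv φ t) ∧ (∀ a, F.H a e = 0) ∧ (∀ k l, F.V k l e = 0) := by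
  have hmem : ∀ z (t : TI T), F.ev z t F.tt ∈ U := by
    intro z t
    rw [hF.tt_ev]
    exact hT t
  obtain ⟨e, he⟩ := hF.comp φ U hU hφ F.tt hmem
  have hch := hF.chain φ U hU hφ F.tt e hmem he
  have hH : ∀ a, F.H a e = 0 := by
    intro a
    apply hF.ext
    intro z t
    rw [(hch z t).1 a, hF.tt_H, map_zero, mul_zero]
  have hV : ∀ k l, F.V k l e = 0 := by
    intro k l
    apply hF.ext
    intro z t
    rw [(hch z t).2.1 k l, hF.tt_V, map_zero, mul_zero]
  have hD : ∀ z t, F.ev z t (F.D e) = deriv φ t := by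
    intro z t
    rw [(hch z t).2.2, hF.tt_D, hF.tt_ev, map_one, mul_one]
  refine ⟨e, fun z t => by rw [he z t, hF.tt_ev], ?_, hD, hH, hV⟩
  intro z t
  rw [← hD z t]
  unfold FB.Hop FB.Lap
  simp [hH]

theorem goal_MP1 (hMP3 : Goal_MP3) : Goal_MP1 := by
  intro n T F hF f t1 T1 K ε0 ht1 hT1 hK hε0 hini hmin z0 t0 ht0 ht0'
  by_contra hcon
  rw [not_le] at hcon
  have hφ : ContDiffOn ℝ ((⊤ : ℕ∞) : WithTop ℕ∞) (fun r : ℝ => Real.exp ((K + 1) * r)) Set.univ := by
    apply ContDiff.contDiffOn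
    exact Real.contDiff_exp.comp (contDiff_const.mul contDiff_id)
  obtain ⟨e, he, heH, -, -, -⟩ := exists_time hF (fun r : ℝ => Real.exp ((K + 1) * r)) Set.univ isOpen_univ hφ
    (fun _ => Set.mem_univ _)
  have hder : ∀ r : ℝ, deriv (fun r : ℝ => Real.exp ((K + 1) * r)) r = (K + 1) * Real.exp ((K + 1) * r) := by
    intro r
    have h1 : HasDerivAt (fun r : ℝ => (K + 1) * r) ((K + 1) * 1) r := (hasDerivAt_id r).const_mul (K + 1)
    have h2 := h1.exp.deriv
    rw [h2]
    ring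
  have hX : 0 < Real.exp ((K + 1) * T1) := Real.exp_pos _
  have hle : ∀ t : TI T, (t : ℝ) ≤ T1 → Real.exp ((K + 1) * t) ≤ Real.exp ((K + 1) * T1) := by
    intro t ht
    apply Real.exp_le_exp.mpr
    exact mul_le_mul_of_nonneg_left ht (by linarith)
  have hone : ∀ t : TI T, 1 ≤ Real.exp ((K + 1) * t) := by
    intro t
    apply Real.one_le_exp
    exact mul_nonneg (by linarith) t.2.1.le
  have hm : 0 < min (ε0 / 2) (-F.ev z0 t0 f) := lt_min (by linarith) (by linarith)
  obtain ⟨ε, hε, hεX⟩ : ∃ ε : ℝ, 0 < ε ∧ ε * Real.exp ((K + 1) * T1) = min (ε0 / 2) (-F.ev z0 t0 f) :=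
    ⟨min (ε0 / 2) (-F.ev z0 t0 f) / Real.exp ((K + 1) * T1), div_pos hm hX, div_mul_cancel₀ _ hX.ne'⟩
  have h1 : min (ε0 / 2) (-F.ev z0 t0 f) ≤ ε0 / 2 := min_le_left _ _
  have h2 : min (ε0 / 2) (-F.ev z0 t0 f) ≤ -F.ev z0 t0 f := min_le_right _ _
  have hev : ∀ z (t : TI T), F.ev z t (f + ε • e) = F.ev z t f + ε * Real.exp ((K + 1) * t) := by
    intro z t
    rw [map_add, map_smul, he, smul_eq_mul]
  have hevH : ∀ z (t : TI T), F.ev z t (F.Hop (f + ε • e)) =
      F.ev z t (F.Hop f) + ε * ((K + 1) * Real.exp ((K + 1) * t)) := by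
    intro z t
    rw [Hop_add', Hop_smul', map_add, map_smul, heH, smul_eq_mul, hder]
  have hpos := hMP3 n T F hF Unit (fun _ => f + ε • e)
    ((hF.cont (f + ε • e)).comp continuous_snd) t1 T1 ht1 hT1
    (by
      obtain ⟨δ, hδ, hδ'⟩ := hini (ε / 2) (by linarith)
      refine ⟨δ, hδ, ?_⟩
      intro _ z t ht ht'
      rw [hev]
      have h3 := hδ' z t ht ht'
      have h4 := mul_le_mul_of_nonneg_left (hone t) hε.le
      linarith)
    (by
      intro _ z t ht ht' hz hz'
      have h3 := hev z t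
      rw [hz] at h3
      have h4 : ε * Real.exp ((K + 1) * t) ≤ ε * Real.exp ((K + 1) * T1) :=
        mul_le_mul_of_nonneg_left (hle t ht') hε.le
      have h5 : 0 < ε * Real.exp ((K + 1) * t) := mul_pos hε (Real.exp_pos _)
      have h6 := hmin z t ht ht'
        (by
          intro z'
          have h7 := hz' () z'
          rw [hev] at h7
          linarith)
        (by linarith) (by linarith)
      rw [hevH]
      have h8 : F.ev z t f = -(ε * Real.exp ((K + 1) * t)) := by linarith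
      rw [h8] at h6
      nlinarith)
    () z0 t0 ht0 ht0'
  rw [hev] at hpos
  have h9 := mul_le_mul_of_nonneg_left (hle t0 ht0') hε.le
  linarith

end Pool.Agent.Helper14.RFn

namespace Pool.Agent.Helper47.RFn

theorem goal_MP1 (hMP3 : Goal_MP3) : Goal_MP1 := Pool.Agent.Helper14.RFn.goal_MP1 hMP3

end Pool.Agent.Helper47.RFn
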